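import Pool.Agent.Run7.h641.MK.Iface

/-!
# Piece CH: convexity from the local inequality
-/

set_option autoImplicit false

namespace Pool.Agent.Run7.h641.MK.CH

open Pool.Agent.Run7.h641.MK

/-- three vectors in the plane -/
theorem tri (a w b : ℤ × ℤ) : (det a b) * w.1 = det w b * a.1 + det a w * b.1 ∧
    (det a b) * w.2 = det w b * a.2 + det a w * b.2 := by
  unfold det
  constructor <;> ring

theorem not_coprime_mul (b c : ℤ × ℤ) (e : ℤ) (he : 2 ≤ e) (h1 : b.1 = e * c.1)
    (h2 : b.2 = e * c.2) : ¬ IsCoprime b.1 b.2 := by
  rintro ⟨x, y, hxy⟩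
  have h : e ∣ 1 := ⟨x * c.1 + y * c.2, by rw [← hxy, h1, h2]; ring⟩
  have := Int.le_of_dvd one_pos h
  omega

theorem st1_aux (f : ℤ × ℤ → ℝ) (hf : LI f) : ∀ n : ℕ, ∀ a w b, Q a → Q w → Q b →
    IsCoprime b.1 b.2 → det a w = 1 → 1 ≤ det w b → det w b ≤ n →
    (det a b : ℝ) * f w < det w b * f a + f b := by
  intro n
  induction n with
  | zero =>
    intro a w b _ _ _ _ _ h1 h2
    push_cast at h2
    omega
  | succ n ih =>
    intro a w b ha hw hb hc haw hwb hn
    rcases eq_or_lt_of_le hwb with h | h
    · rw [← h, Int.cast_one, one_mul]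
      exact hf a w b ha hw hb haw h.symm
    · set e : ℤ := det w b with he
      set d : ℤ := det a b with hd
      have he2 : 2 ≤ e := by omega
      obtain ⟨t1, t2⟩ := tri a w b
      rw [← hd, ← he, haw, one_mul] at t1 t2
      -- k = ceil (d / e)
      set r : ℤ := (-d) % e with hr
      set k : ℤ := -((-d) / e) with hk
      have hr0 : 0 ≤ r := Int.emod_nonneg _ (by omega)
      have hr1 : r < e := Int.emod_lt_of_pos _ (by omega)
      have hdiv : k * e - d = r := by
        have := Int.emod_add_mul_ediv (-d) e
        rw [hk, hr]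
        linarith
      set w' : ℤ × ℤ := (k * w.1 - a.1, k * w.2 - a.2) with hw'
      have e1 : det w w' = 1 := by
        rw [← haw, hw']
        unfold det
        ring
      have e2 : det a w' = k := by
        have : det a w' = k * det a w := by
          rw [hw']
          unfold det
          ring
        rw [this, haw, mul_one]
      have e3 : det w' b = r := by
        rw [← hdiv, hd, he, hw']
        unfold det
        ring
      have c1 : e * w'.1 = r * w.1 + b.1 := by
        rw [← hdiv, hw']
        linear_combination t1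
      have c2 : e * w'.2 = r * w.2 + b.2 := by
        rw [← hdiv, hw']
        linear_combination t2
      have hQ' : Q w' := by
        constructor
        · by_contra hneg
          push Not at hneg
          have h1 : e * w'.1 < 0 := mul_neg_of_pos_of_neg (by omega) hneg
          have h2 : 0 ≤ r * w.1 + b.1 := add_nonneg (mul_nonneg hr0 hw.1) hb.1
          omega
        · by_contra hneg
          push Not at hneg
          have h1 : e * w'.2 < 0 := mul_neg_of_pos_of_neg (by omega) hneg
          have h2 : 0 ≤ r * w.2 + b.2 := add_nonneg (mul_nonneg hr0 hw.2) hb.2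
          omega
      have hr2 : 1 ≤ r := by
        by_contra hcon
        have hr00 : r = 0 := by omega
        rw [hr00, zero_mul, zero_add] at c1 c2
        exact not_coprime_mul b w' e he2 c1.symm c2.symm hc
      have i1 := hf a w w' ha hw hQ' haw e1
      have i2 := ih w w' b hw hQ' hb hc e1 (by rw [e3]; exact hr2) (by
        rw [e3]
        push_cast at hn
        omega)
      rw [e2] at i1
      rw [← he, e3] at i2
      have hdk : (d : ℝ) = k * e - r := by
        have : d = k * e - r := by omega
        rw [this]
        push_cast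
        ring
      have hep : (0 : ℝ) < e := by
        have : (0 : ℤ) < e := by omega
        exact_mod_cast this
      have i3 := mul_lt_mul_of_pos_left i1 hep
      rw [hdk]
      nlinarith [i3, i2]

theorem st1 (f : ℤ × ℤ → ℝ) (hf : LI f) : ST1 f := by
  intro a w b ha hw hb hc haw hwb
  exact st1_aux f hf (det w b).toNat a w b ha hw hb hc haw hwb (by
    rw [Int.toNat_of_nonneg (by omega)])

theorem li_swap (f : ℤ × ℤ → ℝ) (hf : LI f) : LI (fun v => f v.swap) := by
  intro a w b ha hw hb haw hwb
  have h1 : det b.swap w.swap = 1 := by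
    rw [← hwb]
    unfold det
    simp only [Prod.fst_swap, Prod.snd_swap]
    ring
  have h2 : det w.swap a.swap = 1 := by
    rw [← haw]
    unfold det
    simp only [Prod.fst_swap, Prod.snd_swap]
    ring
  have h3 : det b.swap a.swap = det a b := by
    unfold det
    simp only [Prod.fst_swap, Prod.snd_swap]
    ring
  have := hf b.swap w.swap a.swap ⟨hb.2, hb.1⟩ ⟨hw.2, hw.1⟩ ⟨ha.2, ha.1⟩ h1 h2
  rw [h3] at this
  linarith

theorem st2 (f : ℤ × ℤ → ℝ) (hf : LI f) : ST2 f := by
  intro a w b ha hw hb hc haw hwb
  have h1 : det b.swap w.swap = 1 := by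
    rw [← hwb]
    unfold det
    simp only [Prod.fst_swap, Prod.snd_swap]
    ring
  have h2 : det w.swap a.swap = det a w := by
    unfold det
    simp only [Prod.fst_swap, Prod.snd_swap]
    ring
  have h3 : det b.swap a.swap = det a b := by
    unfold det
    simp only [Prod.fst_swap, Prod.snd_swap]
    ring
  have := st1 _ (li_swap f hf) b.swap w.swap a.swap ⟨hb.2, hb.1⟩ ⟨hw.2, hw.1⟩ ⟨ha.2, ha.1⟩
    hc.symm h1 (by rw [h2]; exact haw)
  rw [h3, h2] at this
  simp only [Prod.swap_swap] at this
  linarith

theorem cv (f : ℤ × ℤ → ℝ) (hf : LI f) : CV f := by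
  intro a w b ha hw hb hca hcw hcb haw hwb
  rcases eq_or_lt_of_le haw with h | h
  · have := st1 f hf a w b ha hw hb hcb h.symm hwb
    rw [← h, Int.cast_one, one_mul]
    exact this
  · obtain ⟨s, t, hst⟩ := hcw
    set D : ℤ := det a w with hD
    have hD2 : 2 ≤ D := by omega
    set c : ℤ := det a (t, -s) with hcc
    set r : ℤ := c % D with hr
    set j : ℤ := -(c / D) with hj
    have hr0 : 0 ≤ r := Int.emod_nonneg _ (by omega)
    have hr1 : r < D := Int.emod_lt_of_pos _ (by omega)
    have hdiv : c + j * D = r := by
      have := Int.emod_add_mul_ediv c D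
      rw [hj, hr]
      linarith
    set a' : ℤ × ℤ := (t + j * w.1, -s + j * w.2) with ha'
    have e1 : det a' w = 1 := by
      rw [← hst, ha']
      unfold det
      ring
    have e2 : det a a' = r := by
      rw [← hdiv, hcc, hD, ha']
      unfold det
      ring
    obtain ⟨t1, t2⟩ := tri a a' w
    rw [← hD, e1, e2, one_mul] at t1 t2
    have hQ' : Q a' := by
      constructor
      · by_contra hneg
        push Not at hneg
        have h1 : D * a'.1 < 0 := mul_neg_of_pos_of_neg (by omega) hneg
        have h2 : 0 ≤ a.1 + r * w.1 := add_nonneg ha.1 (mul_nonneg hr0 hw.1)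
        omega
      · by_contra hneg
        push Not at hneg
        have h1 : D * a'.2 < 0 := mul_neg_of_pos_of_neg (by omega) hneg
        have h2 : 0 ≤ a.2 + r * w.2 := add_nonneg ha.2 (mul_nonneg hr0 hw.2)
        omega
    have hr2 : 1 ≤ r := by
      by_contra hcon
      have hr00 : r = 0 := by omega
      rw [hr00, zero_mul, add_zero] at t1 t2
      exact not_coprime_mul a a' D hD2 t1.symm t2.symm hca
    have i1 := st2 f hf a a' w ha hQ' hw hca (by rw [e2]; exact hr2) e1
    have i2 := st1 f hf a' w b hQ' hw hb hcb e1 hwb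
    rw [← hD, e2] at i1
    have key : (D : ℝ) * (det a' b : ℝ) - (det w b : ℝ) * r = (det a b : ℝ) := by
      have : D * det a' b - det w b * r = det a b := by
        have h1 : D * det a' b = (D * a'.1) * b.2 - (D * a'.2) * b.1 := by
          unfold det
          ring
        rw [h1, t1, t2]
        unfold det
        ring
      exact_mod_cast this
    have hDp : (0 : ℝ) < D := by
      have : (0 : ℤ) < D := by omega
      exact_mod_cast this
    have hep : (0 : ℝ) < (det w b : ℝ) := by
      have : (0 : ℤ) < det w b := by omega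
      exact_mod_cast this
    have i3 := mul_lt_mul_of_pos_left i2 hDp
    have i4 := mul_lt_mul_of_pos_left i1 hep
    rw [← key]
    nlinarith [i3, i4]

theorem t_CH : S_CH := fun f hf => ⟨st1 f hf, st2 f hf, cv f hf⟩

end Pool.Agent.Run7.h641.MK.CH
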